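import Mathlib

/-!
Averaging over the maximal chains of subsets of `Fin n` given by permutations.
-/

namespace Pool.Agent.H4Cnt

open Finset

/-- The final segment of length `n - m`. -/
def seg (n m : ℕ) : Finset (Fin n) := univ.filter fun j => m ≤ (j : ℕ)

theorem mem_seg (n m : ℕ) (j : Fin n) : j ∈ seg n m ↔ m ≤ (j : ℕ) := by simp [seg]

theorem card_seg (n m : ℕ) (hm : m ≤ n) : (seg n m).card = n - m := by
  have h1 : (univ.filter fun j : Fin n => ¬ m ≤ (j : ℕ)).card = m := by
    have : (univ.filter fun j : Fin n => ¬ m ≤ (j : ℕ)) = univ.filter fun j : Fin n => (j : ℕ) < m := by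
      ext j
      simp
    rw [this]
    simp [Fin.card_filter_val_lt, hm]
  have h2 := card_filter_add_card_filter_not (s := (univ : Finset (Fin n)))
    (fun j : Fin n => m ≤ (j : ℕ))
  rw [card_univ, Fintype.card_fin] at h2
  unfold seg
  omega

theorem exists_perm (n : ℕ) (I J : Finset (Fin n)) (h : I.card = J.card) :
    ∃ τ : Equiv.Perm (Fin n), I.image τ = J := by
  classical
  let e : {x // x ∈ I} ≃ {x // x ∈ J} := Finset.equivOfCardEq h
  refine ⟨e.extendSubtype, ?_⟩
  apply eq_of_subset_of_card_le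
  · intro x hx
    rw [mem_image] at hx
    obtain ⟨y, hy, rfl⟩ := hx
    exact e.extendSubtype_mem y hy
  · rw [card_image_of_injective _ (Equiv.injective _), h]

theorem card_perm_image (n : ℕ) (T I : Finset (Fin n)) (h : T.card = I.card) :
    ((univ : Finset (Equiv.Perm (Fin n))).filter fun σ : Equiv.Perm (Fin n) => T.image σ = I).card *
      n.choose I.card = n.factorial := by
  classical
  have hN : ∀ J ∈ powersetCard I.card (univ : Finset (Fin n)),
      ((univ : Finset (Equiv.Perm (Fin n))).filter fun σ : Equiv.Perm (Fin n) => T.image σ = J).card =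
      ((univ : Finset (Equiv.Perm (Fin n))).filter fun σ : Equiv.Perm (Fin n) => T.image σ = I).card := by
    intro J hJ
    obtain ⟨τ, hτ⟩ := exists_perm n J I (mem_powersetCard.1 hJ).2
    apply card_bij (fun σ _ => τ * σ)
    · intro σ hσ
      rw [mem_filter] at hσ ⊢
      refine ⟨mem_univ _, ?_⟩
      rw [← hτ, ← hσ.2, image_image]
      rfl
    · intro a _ b _ hab
      exact mul_left_cancel hab
    · intro σ hσ
      rw [mem_filter] at hσ
      refine ⟨τ⁻¹ * σ, ?_, by simp⟩
      rw [mem_filter]
      refine ⟨mem_univ _, ?_⟩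
      have h3 : T.image (τ⁻¹ * σ : Equiv.Perm (Fin n)) = (T.image σ).image (τ⁻¹ : Equiv.Perm (Fin n)) := by
        rw [image_image]
        rfl
      rw [h3, hσ.2, ← hτ, image_image]
      have : (⇑(τ⁻¹) ∘ ⇑τ) = id := by
        funext x
        simp
      rw [this, image_id]
  have hsum := card_eq_sum_card_fiberwise (s := (univ : Finset (Equiv.Perm (Fin n))))
    (t := powersetCard I.card (univ : Finset (Fin n))) (f := fun σ : Equiv.Perm (Fin n) => T.image σ) (by
      intro σ _
      rw [mem_coe, mem_powersetCard]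
      exact ⟨subset_univ _, by rw [card_image_of_injective _ (Equiv.injective σ), h]⟩)
  rw [sum_congr rfl hN, sum_const, card_powersetCard, card_univ, Fintype.card_perm, card_univ,
    Fintype.card_fin, smul_eq_mul] at hsum
  rw [hsum, mul_comm]

/-- `I` is one of the sets of the chain given by `σ`. -/
def InChain {n : ℕ} (σ : Equiv.Perm (Fin n)) (I : Finset (Fin n)) : Prop :=
  ∃ m : ℕ, m ≤ n ∧ (seg n m).image σ = I

open Classical in
theorem le_card_inChain (n : ℕ) (I : Finset (Fin n)) :
    n.factorial ≤ ((univ : Finset (Equiv.Perm (Fin n))).filter fun σ : Equiv.Perm (Fin n) => InChain σ I).card *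
      n.choose (n / 2) := by
  have hI : I.card ≤ n := by
    simpa using card_le_univ I
  have hT : (seg n (n - I.card)).card = I.card := by
    rw [card_seg _ _ (Nat.sub_le _ _)]
    omega
  rw [← card_perm_image n _ I hT]
  apply Nat.mul_le_mul
  · apply card_le_card
    intro σ hσ
    rw [mem_filter] at hσ ⊢
    exact ⟨mem_univ _, n - I.card, Nat.sub_le _ _, hσ.2⟩
  · exact Nat.choose_le_middle _ _

open Classical in
/-- Some chain contains a proportion of at least `1 / n.choose (n / 2)` of the total weight. -/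
theorem exists_chain {ι : Type*} (n : ℕ) (s : Finset ι) (w : ι → ℝ) (hw : ∀ p ∈ s, 0 ≤ w p)
    (I : ι → Finset (Fin n)) :
    ∃ σ : Equiv.Perm (Fin n),
      1 / (n.choose (n / 2) : ℝ) * ∑ p ∈ s, w p ≤ ∑ p ∈ s with InChain σ (I p), w p := by
  have hM : (0 : ℝ) < n.choose (n / 2) := by
    exact_mod_cast Nat.choose_pos (Nat.div_le_self n 2)
  have key : ∑ _σ : Equiv.Perm (Fin n), 1 / (n.choose (n / 2) : ℝ) * ∑ p ∈ s, w p ≤
      ∑ σ : Equiv.Perm (Fin n), ∑ p ∈ s with InChain σ (I p), w p := by
    simp only [sum_filter]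
    rw [sum_comm, sum_const, card_univ, Fintype.card_perm, Fintype.card_fin, nsmul_eq_mul,
      mul_sum, mul_sum]
    apply sum_le_sum
    intro p hp
    rw [← sum_filter, sum_const, nsmul_eq_mul, ← mul_assoc]
    apply mul_le_mul_of_nonneg_right _ (hw p hp)
    rw [mul_one_div, div_le_iff₀ hM]
    exact_mod_cast le_card_inChain n (I p)
  obtain ⟨σ, -, hσ⟩ := exists_le_of_sum_le univ_nonempty key
  exact ⟨σ, hσ⟩

end Pool.Agent.H4Cnt
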