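import Pool.Agent.H4Cnt.Point

/-!
The count of the points of height at most `B` that violate the inequality.
-/

namespace Pool.Agent.H4Cnt

open Finset

/-- The combinatorial bound. -/
theorem card_le {t : ℕ} (ht : 1 ≤ t) (B Y K : ℕ) (hB1 : 1 ≤ B)
    (hK : ∀ E, 0 < E → E ≤ bigX t B → (smoothZ E B).card ≤ K)
    (V : Finset (Fin (t + 1) → ℤ)) (hV : ∀ z ∈ V, IsPt z ∧ (∀ i, |z i| ≤ B) ∧
      ∀ σ : Equiv.Perm (Fin (t + 1)), Real.log (cost z σ) ≤
        (1 - 1 / ((t + 1).choose ((t + 1) / 2) : ℝ)) * ∑ p ∈ prs z, Real.log p →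
        cost z σ ≤ Y) :
    V.card ≤ K ^ t * ((t + 1).factorial * Y) := by
  classical
  choose σ hσ using fun z : Fin (t + 1) → ℤ => exists_perm_cost z
  have h := card_le_mul_card_image_of_maps_to (s := V)
    (t := (univ : Finset (Equiv.Perm (Fin (t + 1)))) ×ˢ Icc 1 Y)
    (f := fun z => (σ z, cost z (σ z))) (by
      intro z hz
      rw [mem_product, mem_Icc]
      exact ⟨mem_univ _, cost_pos z _, (hV z hz).2.2 (σ z) (hσ z)⟩) (K ^ t) (by
      rintro ⟨τ, D⟩ -
      refine le_trans ?_ (card_good_le D B (bigX t B) K hK t)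
      apply card_le_card_of_injOn (fun z => Fin.init (z ∘ τ))
      · intro z hz
        rw [mem_coe, mem_filter, Prod.mk.injEq] at hz
        obtain ⟨hzV, hz1, hz2⟩ := hz
        have h2 := init_mem_good ht (hV z hzV).1 (σ z) B hB1 (hV z hzV).2.1
        rw [hz2] at h2
        rw [mem_coe, ← hz1]
        exact h2
      · intro z hz z' hz' heq
        rw [mem_coe, mem_filter] at hz hz'
        have h1 := (hV z hz.1).1.sum
        have h2 := (hV z' hz'.1).1.sum
        rw [← Equiv.sum_comp τ, Fin.sum_univ_castSucc] at h1 h2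
        have h3 : ∀ i : Fin t, z (τ i.castSucc) = z' (τ i.castSucc) := fun i => congrFun heq i
        have h4 : z (τ (Fin.last t)) = z' (τ (Fin.last t)) := by
          have : ∑ i : Fin t, z (τ i.castSucc) = ∑ i : Fin t, z' (τ i.castSucc) :=
            sum_congr rfl fun i _ => h3 i
          linarith
        funext i
        obtain ⟨j, rfl⟩ := τ.surjective i
        refine Fin.lastCases h4 (fun j => h3 j) j)
  rw [card_product, card_univ, Fintype.card_perm, Fintype.card_fin, Nat.card_Icc,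
    Nat.add_sub_cancel] at h
  exact h

theorem main (t : ℕ) (ht : 1 ≤ t) (ε δ C : ℝ) (hε : -1 < ε) (hδ : 0 < δ) :
    ∃ A : ℝ, ∀ B : ℕ, 1 ≤ B → ∀ V : Finset (Fin (t + 1) → ℤ),
      (∀ z ∈ V, IsPt z ∧ (∀ i, |z i| ≤ B) ∧
        (1 + ε) * ∑ p ∈ prs z, Real.log p + C ≤ Real.log B) →
      (V.card : ℝ) ≤
        A * (B : ℝ) ^ ((1 - 1 / ((t + 1).choose ((t + 1) / 2) : ℝ)) / (1 + ε) + δ) := by
  set θ : ℝ := 1 - 1 / ((t + 1).choose ((t + 1) / 2) : ℝ) with hθ
  have hM : (1 : ℝ) ≤ (t + 1).choose ((t + 1) / 2) := by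
    exact_mod_cast Nat.choose_pos (Nat.div_le_self (t + 1) 2)
  have hθ0 : 0 ≤ θ := by
    rw [hθ, sub_nonneg]
    exact div_le_one_of_le₀ hM (by linarith)
  have hε1 : 0 < 1 + ε := by linarith
  set δ' : ℝ := δ / ((2 * t + 3) * (t + 1)) with hδ'
  have hδ'0 : 0 < δ' := by positivity
  obtain ⟨A, hA1, hA⟩ := rankin δ' hδ'0
  refine ⟨(t + 1).factorial * Real.exp (-(C * θ / (1 + ε))) * ((2 * A) ^ t *
    ((((t : ℝ) + 1) ^ (t + 1)) ^ δ') ^ t), ?_⟩
  intro B hB V hV
  have hB0 : (0 : ℝ) < B := by exact_mod_cast hB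
  have hB1 : (1 : ℝ) ≤ B := by exact_mod_cast hB
  set y : ℝ := Real.exp (θ * ((Real.log B - C) / (1 + ε))) with hy
  set Y : ℕ := ⌊y⌋₊ with hY
  set k : ℝ := 2 * (A * ((B : ℝ) ^ δ' * (bigX t B : ℝ) ^ δ')) with hk
  set K : ℕ := ⌊k⌋₊ with hK
  have hX0 : 0 < bigX t B := by
    unfold bigX
    positivity
  have hk0 : 0 ≤ k := by
    rw [hk]
    positivity
  have hKb : ∀ E, 0 < E → E ≤ bigX t B → (smoothZ E B).card ≤ K := by
    intro E hE hEX
    rw [hK, Nat.le_floor_iff hk0]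
    have h1 : ((smoothZ E B).card : ℝ) ≤ 2 * (smoothN E B).card := by
      exact_mod_cast card_smoothZ_le E B
    refine h1.trans ?_
    rw [hk]
    apply mul_le_mul_of_nonneg_left _ (by norm_num)
    refine (hA E B hE).trans ?_
    apply mul_le_mul_of_nonneg_left _ (by linarith)
    apply mul_le_mul_of_nonneg_left _ (Real.rpow_nonneg hB0.le _)
    apply Real.rpow_le_rpow (Nat.cast_nonneg E) _ hδ'0.le
    exact_mod_cast hEX
  have hcard := card_le ht B Y K hB hKb V (by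
    intro z hz
    obtain ⟨h1, h2, h3⟩ := hV z hz
    refine ⟨h1, h2, ?_⟩
    intro σ hσ
    rw [hY, Nat.le_floor_iff (Real.exp_pos _).le]
    have h4 : ∑ p ∈ prs z, Real.log p ≤ (Real.log B - C) / (1 + ε) := by
      rw [le_div_iff₀ hε1]
      linarith
    have h5 : Real.log (cost z σ) ≤ θ * ((Real.log B - C) / (1 + ε)) :=
      hσ.trans (mul_le_mul_of_nonneg_left h4 hθ0)
    exact (Real.log_le_iff_le_exp (by exact_mod_cast cost_pos z σ)).1 h5)
  have hcard' : (V.card : ℝ) ≤ (K : ℝ) ^ t * ((t + 1).factorial * Y) := by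
    exact_mod_cast hcard
  have hKk : (K : ℝ) ≤ k := Nat.floor_le hk0
  have hYy : (Y : ℝ) ≤ y := Nat.floor_le (Real.exp_pos _).le
  have hstep : (V.card : ℝ) ≤ k ^ t * ((t + 1).factorial * y) := by
    refine hcard'.trans ?_
    apply mul_le_mul
    · exact pow_le_pow_left₀ (Nat.cast_nonneg K) hKk t
    · exact mul_le_mul_of_nonneg_left hYy (Nat.cast_nonneg _)
    · positivity
    · positivity
  refine hstep.trans ?_
  have hy2 : y = Real.exp (-(C * θ / (1 + ε))) * (B : ℝ) ^ (θ / (1 + ε)) := by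
    rw [hy, Real.rpow_def_of_pos hB0, ← Real.exp_add]
    congr 1
    field_simp
    ring
  have hX2 : (bigX t B : ℝ) = ((t : ℝ) + 1) ^ (t + 1) * (B : ℝ) ^ (2 * t + 2) := by
    unfold bigX
    push_cast
    rw [mul_pow]
    ring
  have hk2 : k = 2 * A * (((t : ℝ) + 1) ^ (t + 1)) ^ δ' * (B : ℝ) ^ (δ' * (2 * t + 3)) := by
    rw [hk, hX2, Real.mul_rpow (by positivity) (by positivity), ← Real.rpow_natCast (B : ℝ),
      ← Real.rpow_mul hB0.le]
    have : (B : ℝ) ^ (δ' * (2 * t + 3)) = (B : ℝ) ^ δ' * (B : ℝ) ^ (((2 * t + 2 : ℕ) : ℝ) * δ') := by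
      rw [← Real.rpow_add hB0]
      congr 1
      push_cast
      ring
    rw [this]
    ring
  have hkt : k ^ t ≤ (2 * A) ^ t * ((((t : ℝ) + 1) ^ (t + 1)) ^ δ') ^ t * (B : ℝ) ^ δ := by
    rw [hk2, mul_pow, mul_pow, ← Real.rpow_natCast ((B : ℝ) ^ (δ' * (2 * t + 3))),
      ← Real.rpow_mul hB0.le]
    apply mul_le_mul_of_nonneg_left _ (by positivity)
    apply Real.rpow_le_rpow_of_exponent_le hB1
    rw [hδ']
    have h1 : δ / ((2 * (t : ℝ) + 3) * (t + 1)) * (2 * t + 3) * t = δ * (t / (t + 1)) := by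
      field_simp
    rw [h1]
    have h2 : (t : ℝ) / (t + 1) ≤ 1 := by
      rw [div_le_one (by positivity)]
      linarith
    nlinarith
  calc k ^ t * ((t + 1).factorial * y)
      ≤ ((2 * A) ^ t * ((((t : ℝ) + 1) ^ (t + 1)) ^ δ') ^ t * (B : ℝ) ^ δ) *
          ((t + 1).factorial * y) := by
        apply mul_le_mul_of_nonneg_right hkt
        positivity
    _ = _ := by
        rw [hy2, Real.rpow_add hB0]
        ring

end Pool.Agent.H4Cnt
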