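import Pool.Agent.H4Cnt.Prefix
import Pool.Agent.H4Cnt.Chain

/-!
The coordinates of a point, ordered by a permutation, are built by the process of `Prefix`.
-/

namespace Pool.Agent.H4Cnt

open Finset

/-- Primitive integral vectors with sum zero and without vanishing subsums. -/
structure IsPt {n : ℕ} (z : Fin n → ℤ) : Prop where
  sum : ∑ i, z i = 0
  sub : ∀ I : Finset (Fin n), I.Nonempty → I ≠ univ → ∑ i ∈ I, z i ≠ 0
  cop : ∀ g : ℤ, (∀ i, g ∣ z i) → IsUnit g

/-- The set of coordinates divisible by `p`. -/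
def pat {n : ℕ} (z : Fin n → ℤ) (p : ℕ) : Finset (Fin n) := univ.filter fun i => (p : ℤ) ∣ z i

theorem IsPt.ne_zero {n : ℕ} (hn : 2 ≤ n) {z : Fin n → ℤ} (hz : IsPt z) (i : Fin n) :
    z i ≠ 0 := by
  have h := hz.sub {i} (singleton_nonempty i) (by
    intro h
    have := congrArg Finset.card h
    rw [card_singleton, card_univ, Fintype.card_fin] at this
    omega)
  simpa using h

theorem psum_add_tail {n : ℕ} (z : Fin n → ℤ) (m : ℕ) :
    psum z m + ∑ i ∈ seg n m, z i = ∑ i, z i := by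
  unfold psum seg
  rw [sum_filter, ← sum_add_distrib]
  refine sum_congr rfl fun i _ => ?_
  by_cases h : (i : ℕ) < m
  · simp [h, not_le.2 h]
  · simp [h, not_lt.1 h]

theorem psum_perm_ne_zero {n : ℕ} {z : Fin n → ℤ} (hz : IsPt z) (σ : Equiv.Perm (Fin n)) (m : ℕ)
    (h1 : 1 ≤ m) (h2 : m < n) : psum (z ∘ σ) m ≠ 0 := by
  classical
  have h := hz.sub ((univ.filter fun j : Fin n => (j : ℕ) < m).image σ) (by
    refine ⟨σ ⟨0, by omega⟩, mem_image_of_mem _ ?_⟩
    rw [mem_filter]
    exact ⟨mem_univ _, h1⟩) (by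
    intro h
    have h3 : σ ⟨m, h2⟩ ∈ (univ.filter fun j : Fin n => (j : ℕ) < m).image σ := by
      rw [h]
      exact mem_univ _
    rw [mem_image] at h3
    obtain ⟨j, hj, hj2⟩ := h3
    rw [mem_filter] at hj
    have := σ.injective hj2
    rw [this] at hj
    simp at hj)
  rw [sum_image (fun a _ b _ hab => σ.injective hab)] at h
  unfold psum
  rw [← sum_filter]
  exact h

theorem pat_ne_univ {n : ℕ} {z : Fin n → ℤ} (hz : IsPt z) (p : ℕ) (hp : p.Prime) :
    pat z p ≠ univ := by
  intro h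
  have h1 : IsUnit (p : ℤ) := hz.cop p (by
    intro i
    have : i ∈ pat z p := by
      rw [h]
      exact mem_univ _
    rw [pat, mem_filter] at this
    exact this.2)
  exact (Nat.prime_iff_prime_int.1 hp).not_isUnit h1

/-- The primes of the point. -/
def prs {n : ℕ} (z : Fin n → ℤ) : Finset ℕ := (∏ i, z i).natAbs.primeFactors

open Classical in
/-- The product of the primes whose pattern is not in the chain. -/
noncomputable def cost {n : ℕ} (z : Fin n → ℤ) (σ : Equiv.Perm (Fin n)) : ℕ :=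
  ∏ p ∈ prs z with ¬ InChain σ (pat z p), p

theorem mem_prs {n : ℕ} (hn : 2 ≤ n) {z : Fin n → ℤ} (hz : IsPt z) (p : ℕ) (hp : p.Prime)
    (i : Fin n) (h : (p : ℤ) ∣ z i) : p ∈ prs z := by
  unfold prs
  rw [Nat.mem_primeFactors]
  refine ⟨hp, ?_, ?_⟩
  · rw [← Int.natCast_dvd]
    exact h.trans (dvd_prod_of_mem _ (mem_univ i))
  · rw [Int.natAbs_ne_zero]
    exact prod_ne_zero_iff.2 fun i _ => hz.ne_zero hn i

theorem prs_prime {n : ℕ} (z : Fin n → ℤ) (p : ℕ) (h : p ∈ prs z) : p.Prime :=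
  Nat.prime_of_mem_primeFactors h

theorem cost_pos {n : ℕ} (z : Fin n → ℤ) (σ : Equiv.Perm (Fin n)) : 0 < cost z σ := by
  classical
  unfold cost
  apply prod_pos
  intro p hp
  rw [mem_filter] at hp
  exact (prs_prime z p hp.1).pos

theorem cost_le {n : ℕ} (hn : 2 ≤ n) {z : Fin n → ℤ} (hz : IsPt z) (σ : Equiv.Perm (Fin n))
    (B : ℕ) (hB : ∀ i, |z i| ≤ B) : cost z σ ≤ B ^ n := by
  classical
  have h0 : (∏ i, z i).natAbs ≠ 0 := by
    rw [Int.natAbs_ne_zero]
    exact prod_ne_zero_iff.2 fun i _ => hz.ne_zero hn i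
  have h1 : cost z σ ≤ ∏ p ∈ prs z, p := by
    unfold cost
    apply prod_le_prod_of_subset_of_one_le' (filter_subset _ _)
    intro p hp _
    exact (prs_prime z p hp).pos
  have h2 : ∏ p ∈ prs z, p ≤ (∏ i, z i).natAbs :=
    Nat.le_of_dvd (Nat.pos_of_ne_zero h0) (Nat.prod_primeFactors_dvd _)
  refine (h1.trans h2).trans ?_
  have h3 : (∏ i, z i).natAbs = ∏ i, (z i).natAbs := map_prod Int.natAbsHom z univ
  rw [h3]
  calc ∏ i, (z i).natAbs ≤ ∏ _i : Fin n, B := by
        apply prod_le_prod'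
        intro i _
        zify
        exact hB i
    _ = B ^ n := by rw [prod_const, card_univ, Fintype.card_fin]

/-- The logarithm of the cost. -/
theorem exists_perm_cost {n : ℕ} (z : Fin n → ℤ) :
    ∃ σ : Equiv.Perm (Fin n), Real.log (cost z σ) ≤
      (1 - 1 / (n.choose (n / 2) : ℝ)) * ∑ p ∈ prs z, Real.log p := by
  classical
  obtain ⟨σ, hσ⟩ := exists_chain n (prs z) (fun p => Real.log p)
    (fun p _ => Real.log_natCast_nonneg p) (fun p => pat z p)
  refine ⟨σ, ?_⟩
  have h1 : Real.log (cost z σ) = ∑ p ∈ prs z with ¬ InChain σ (pat z p), Real.log p := by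
    unfold cost
    rw [Nat.cast_prod, Real.log_prod]
    intro p hp
    rw [mem_filter] at hp
    exact_mod_cast (prs_prime z p hp.1).ne_zero
  have h2 := sum_filter_add_sum_filter_not (prs z) (fun p => InChain σ (pat z p))
    (fun p => Real.log (p : ℝ))
  rw [h1]
  linarith

theorem dvd_allowed {n : ℕ} (hn : 2 ≤ n) {z : Fin n → ℤ} (hz : IsPt z) (σ : Equiv.Perm (Fin n))
    (i : Fin n) (p : ℕ) (hp : p.Prime) (h : (p : ℤ) ∣ z (σ i)) :
    p ∣ allowed (cost z σ) (z ∘ σ) i := by
  classical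
  unfold allowed
  by_cases hc : InChain σ (pat z p)
  · apply Dvd.dvd.mul_left
    obtain ⟨m, -, hm⟩ := hc
    have hm1 : 1 ≤ m := by
      by_contra hcon
      have : m = 0 := by omega
      subst this
      apply pat_ne_univ hz p hp
      rw [← hm]
      have : seg n 0 = univ := by
        ext j
        simp [mem_seg]
      rw [this, image_univ_equiv]
    have him : m ≤ (i : ℕ) := by
      have h1 : σ i ∈ pat z p := by
        rw [pat, mem_filter]
        exact ⟨mem_univ _, h⟩
      rw [← hm, mem_image] at h1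
      obtain ⟨j, hj, hj2⟩ := h1
      rw [σ.injective hj2] at hj
      exact (mem_seg n m i).1 hj
    refine Dvd.dvd.trans ?_ (dvd_prod_of_mem _ (mem_Icc.2 ⟨hm1, him⟩))
    rw [← Int.natCast_dvd]
    have h2 := psum_add_tail (z ∘ σ) m
    have h3 : ∑ i, (z ∘ σ) i = 0 := by
      rw [← hz.sum]
      exact Equiv.sum_comp σ z
    have h4 : (p : ℤ) ∣ ∑ i ∈ seg n m, (z ∘ σ) i := by
      apply dvd_sum
      intro j hj
      have h5 : σ j ∈ pat z p := by
        rw [← hm]
        exact mem_image_of_mem _ hj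
      rw [pat, mem_filter] at h5
      exact h5.2
    have h6 : psum (z ∘ σ) m = -∑ i ∈ seg n m, (z ∘ σ) i := by linarith
    rw [h6]
    exact (dvd_neg).2 h4
  · apply Dvd.dvd.mul_right
    unfold cost
    apply dvd_prod_of_mem (fun p => p)
    rw [mem_filter]
    exact ⟨mem_prs hn hz p hp _ h, hc⟩

theorem natAbs_psum_le {n : ℕ} (z : Fin n → ℤ) (B : ℕ) (hB : ∀ i, |z i| ≤ B) (m : ℕ) :
    (psum z m).natAbs ≤ n * B := by
  zify
  unfold psum
  refine (abs_sum_le_sum_abs _ _).trans ?_
  calc ∑ i : Fin n, |if (i : ℕ) < m then z i else 0| ≤ ∑ _i : Fin n, (B : ℤ) := by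
        apply sum_le_sum
        intro i _
        split_ifs
        · exact hB i
        · simp
    _ = n * B := by rw [sum_const, card_univ, Fintype.card_fin, nsmul_eq_mul]

/-- The bound for the numbers `allowed`. -/
def bigX (t B : ℕ) : ℕ := B ^ (t + 1) * ((t + 1) * B) ^ (t + 1)

theorem init_mem_good {t : ℕ} (ht : 1 ≤ t) {z : Fin (t + 1) → ℤ} (hz : IsPt z)
    (σ : Equiv.Perm (Fin (t + 1))) (B : ℕ) (hB1 : 1 ≤ B) (hB : ∀ i, |z i| ≤ B) :
    Fin.init (z ∘ σ) ∈ good (cost z σ) B (bigX t B) t := by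
  have hB' : ∀ i, |(z ∘ σ) i| ≤ B := fun i => hB (σ i)
  apply mem_good
  · intro i
    exact hz.ne_zero (by omega) _
  · intro i
    exact hB' _
  · intro i
    rw [allowed_init _ _ _ i.2.le]
    unfold allowed
    constructor
    · apply Nat.mul_pos (cost_pos z σ)
      apply prod_pos
      intro m hm
      rw [mem_Icc] at hm
      rw [Int.natAbs_pos]
      exact psum_perm_ne_zero hz σ m hm.1 (by omega)
    · unfold bigX
      apply Nat.mul_le_mul (cost_le (by omega) hz σ B hB)
      calc ∏ m ∈ Icc 1 (i : ℕ), (psum (z ∘ σ) m).natAbs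
          ≤ ∏ _m ∈ Icc 1 (i : ℕ), ((t + 1) * B) := by
            apply prod_le_prod'
            intro m _
            exact natAbs_psum_le (z ∘ σ) B hB' m
        _ = ((t + 1) * B) ^ (i : ℕ) := by simp
        _ ≤ ((t + 1) * B) ^ (t + 1) := by
            apply Nat.pow_le_pow_right
            · positivity
            · omega
  · intro i p hp h
    rw [allowed_init _ _ _ i.2.le]
    exact dvd_allowed (by omega) hz σ i.castSucc p hp h

end Pool.Agent.H4Cnt
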