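import Pool.Agent.H4Cnt.Rankin

/-!
Counting integral vectors whose coordinates are, one after the other, composed of primes dividing
a fixed number or one of the previous partial sums.
-/

namespace Pool.Agent.H4Cnt

open Finset

/-- The sum of the first `m` coordinates. -/
def psum {t : ℕ} (z : Fin t → ℤ) (m : ℕ) : ℤ := ∑ i : Fin t, if (i : ℕ) < m then z i else 0

/-- The number whose prime factors are allowed in the coordinate `t`. -/
def allowed {s : ℕ} (D : ℕ) (z : Fin s → ℤ) (t : ℕ) : ℕ :=
  D * ∏ m ∈ Icc 1 t, (psum z m).natAbs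

theorem psum_init {t : ℕ} (z : Fin (t + 1) → ℤ) (m : ℕ) (hm : m ≤ t) :
    psum (Fin.init z) m = psum z m := by
  unfold psum
  rw [Fin.sum_univ_castSucc]
  simp [Fin.init, not_lt.2 hm]

theorem allowed_init {t : ℕ} (D : ℕ) (z : Fin (t + 1) → ℤ) (i : ℕ) (hi : i ≤ t) :
    allowed D (Fin.init z) i = allowed D z i := by
  unfold allowed
  congr 1
  refine prod_congr rfl fun m hm => ?_
  rw [mem_Icc] at hm
  rw [psum_init z m (hm.2.trans hi)]

open Classical in
/-- The vectors of length `t` built by the process. -/
noncomputable def good (D B X : ℕ) : (t : ℕ) → Finset (Fin t → ℤ)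
  | 0 => {fun i => i.elim0}
  | t + 1 => (good D B X t).biUnion fun w =>
      if 0 < allowed D w t ∧ allowed D w t ≤ X then
        (smoothZ (allowed D w t) B).image fun y => (Fin.snoc w y : Fin (t + 1) → ℤ)
      else ∅

theorem card_good_le (D B X K : ℕ) (hK : ∀ E, 0 < E → E ≤ X → (smoothZ E B).card ≤ K) (t : ℕ) :
    (good D B X t).card ≤ K ^ t := by
  classical
  induction t with
  | zero => simp [good]
  | succ t ih =>
    rw [good]
    refine card_biUnion_le.trans ?_
    have h : ∀ w ∈ good D B X t, (if 0 < allowed D w t ∧ allowed D w t ≤ X then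
        (smoothZ (allowed D w t) B).image fun y => (Fin.snoc w y : Fin (t + 1) → ℤ)
        else ∅).card ≤ K := by
      intro w _
      split_ifs with h
      · exact card_image_le.trans (hK _ h.1 h.2)
      · simp
    refine (sum_le_sum h).trans ?_
    rw [sum_const, smul_eq_mul, pow_succ]
    exact Nat.mul_le_mul_right K ih

theorem mem_good (D B X : ℕ) (t : ℕ) (z : Fin t → ℤ) (h0 : ∀ i, z i ≠ 0) (hB : ∀ i, |z i| ≤ B)
    (hE : ∀ i : Fin t, 0 < allowed D z i ∧ allowed D z i ≤ X)
    (hp : ∀ (i : Fin t) (p : ℕ), p.Prime → (p : ℤ) ∣ z i → p ∣ allowed D z i) :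
    z ∈ good D B X t := by
  classical
  induction t with
  | zero =>
    rw [good, mem_singleton]
    funext i
    exact i.elim0
  | succ t ih =>
    rw [good, mem_biUnion]
    have hle : ∀ i : Fin t, allowed D (Fin.init z) i = allowed D z i := fun i =>
      allowed_init D z i i.2.le
    refine ⟨Fin.init z, ?_, ?_⟩
    · apply ih
      · exact fun i => h0 i.castSucc
      · exact fun i => hB i.castSucc
      · intro i
        rw [hle]
        exact hE i.castSucc
      · intro i p hpp hd
        rw [hle]
        exact hp i.castSucc p hpp hd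
    · have hl : allowed D (Fin.init z) t = allowed D z t := allowed_init D z t le_rfl
      have h2 := hE (Fin.last t)
      rw [Fin.val_last] at h2
      rw [hl, if_pos h2, mem_image]
      refine ⟨z (Fin.last t), ?_, Fin.snoc_init_self z⟩
      apply mem_smoothZ _ _ _ (h0 _) (hB _)
      intro p hpp hd
      have := hp (Fin.last t) p hpp hd
      rwa [Fin.val_last] at this

end Pool.Agent.H4Cnt
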