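import Mathlib

/-!
Rankin's bound for the number of integers up to `B` all of whose prime factors divide `E`.
-/

namespace Pool.Agent.H4Cnt

open Finset

/-- The completely multiplicative function `m ↦ m ^ (-δ)`. -/
noncomputable def powHom (δ : ℝ) : ℕ →* ℝ where
  toFun m := (m : ℝ) ^ (-δ)
  map_one' := by simp
  map_mul' a b := by
    push_cast
    exact Real.mul_rpow (Nat.cast_nonneg a) (Nat.cast_nonneg b)

theorem powHom_apply (δ : ℝ) (m : ℕ) : powHom δ m = (m : ℝ) ^ (-δ) := rfl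

/-- The positive integers up to `B` whose prime factors divide `E`. -/
noncomputable def smoothN (E B : ℕ) : Finset ℕ := by
  classical
  exact (Icc 1 B).filter fun m => ∀ p : ℕ, p.Prime → p ∣ m → p ∣ E

theorem mem_smoothN (E B m : ℕ) :
    m ∈ smoothN E B ↔ (1 ≤ m ∧ m ≤ B) ∧ ∀ p : ℕ, p.Prime → p ∣ m → p ∣ E := by
  classical
  unfold smoothN
  rw [mem_filter, mem_Icc]

theorem pow_neg_lt_one (δ : ℝ) (hδ : 0 < δ) (p : ℕ) (hp : p.Prime) : (p : ℝ) ^ (-δ) < 1 := by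
  apply Real.rpow_lt_one_of_one_lt_of_neg
  · exact_mod_cast hp.one_lt
  · linarith

theorem card_smoothN_le (δ : ℝ) (hδ : 0 < δ) (E B : ℕ) (hE : 0 < E) :
    ((smoothN E B).card : ℝ) ≤
      (B : ℝ) ^ δ * ∏ p ∈ E.primeFactors, (1 - (p : ℝ) ^ (-δ))⁻¹ := by
  classical
  have hsum := (EulerProduct.summable_and_hasSum_factoredNumbers_prod_filter_prime_geometric
    (f := powHom δ) (by
      intro p hp
      rw [powHom_apply, Real.norm_eq_abs, abs_of_nonneg (Real.rpow_nonneg (Nat.cast_nonneg p) _)]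
      exact pow_neg_lt_one δ hδ p hp) E.primeFactors).2
  have hfil : E.primeFactors.filter (fun p => p.Prime) = E.primeFactors := by
    apply filter_true_of_mem
    intro p hp
    exact Nat.prime_of_mem_primeFactors hp
  rw [hfil] at hsum
  have hind := (hasSum_subtype_iff_indicator (f := fun m => powHom δ m)
    (s := Nat.factoredNumbers E.primeFactors)).1 hsum
  have h1 : ∑ m ∈ smoothN E B, (m : ℝ) ^ (-δ) ≤
      ∏ p ∈ E.primeFactors, (1 - (p : ℝ) ^ (-δ))⁻¹ := by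
    have h2 := sum_le_hasSum (smoothN E B) (fun m _ => Set.indicator_nonneg (fun m _ => by
      rw [powHom_apply]
      exact Real.rpow_nonneg (Nat.cast_nonneg m) _) m) hind
    have h3 : ∑ m ∈ smoothN E B, (m : ℝ) ^ (-δ) =
        ∑ m ∈ smoothN E B, (Nat.factoredNumbers E.primeFactors).indicator
          (fun m => powHom δ m) m := by
      refine sum_congr rfl fun m hm => ?_
      rw [mem_smoothN] at hm
      rw [Set.indicator_of_mem]
      · rfl
      · rw [Nat.mem_factoredNumbers']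
        intro p hp hpm
        rw [Nat.mem_primeFactors]
        exact ⟨hp, hm.2 p hp hpm, hE.ne'⟩
    rw [h3]
    exact h2
  calc ((smoothN E B).card : ℝ) = ∑ _m ∈ smoothN E B, (1 : ℝ) := by simp
    _ ≤ ∑ m ∈ smoothN E B, (B : ℝ) ^ δ * (m : ℝ) ^ (-δ) := by
        apply sum_le_sum
        intro m hm
        rw [mem_smoothN] at hm
        have hm0 : (0 : ℝ) < m := by exact_mod_cast hm.1.1
        rw [Real.rpow_neg hm0.le, ← div_eq_mul_inv, one_le_div (Real.rpow_pos_of_pos hm0 _)]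
        exact Real.rpow_le_rpow hm0.le (by exact_mod_cast hm.1.2) hδ.le
    _ = (B : ℝ) ^ δ * ∑ m ∈ smoothN E B, (m : ℝ) ^ (-δ) := by rw [mul_sum]
    _ ≤ _ := mul_le_mul_of_nonneg_left h1 (Real.rpow_nonneg (Nat.cast_nonneg B) _)

theorem prod_inv_le (δ : ℝ) (hδ : 0 < δ) : ∃ A : ℝ, 1 ≤ A ∧ ∀ E : ℕ, 0 < E →
    ∏ p ∈ E.primeFactors, (1 - (p : ℝ) ^ (-δ))⁻¹ ≤ A * (E : ℝ) ^ δ := by
  classical
  set N : ℕ := ⌈(2 : ℝ) ^ (1 / δ)⌉₊ with hN
  set K : ℝ := (1 - (2 : ℝ) ^ (-δ))⁻¹ with hK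
  have h2 : (2 : ℝ) ^ (-δ) < 1 := by
    have := pow_neg_lt_one δ hδ 2 Nat.prime_two
    exact_mod_cast this
  have h2' : 0 < (2 : ℝ) ^ (-δ) := Real.rpow_pos_of_pos (by norm_num) _
  have hK1 : 1 ≤ K := by
    rw [hK]
    apply (one_le_inv₀ (by linarith)).2
    linarith
  refine ⟨K ^ N, one_le_pow₀ hK1, ?_⟩
  intro E hE
  have hfac : ∀ p ∈ E.primeFactors, (1 - (p : ℝ) ^ (-δ))⁻¹ ≤
      (if p < N then K else 1) * (p : ℝ) ^ δ := by
    intro p hp
    have hpp := Nat.prime_of_mem_primeFactors hp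
    have hp1 : (1 : ℝ) ≤ p := by exact_mod_cast hpp.one_lt.le
    have hp2 : (2 : ℝ) ≤ p := by exact_mod_cast hpp.two_le
    have hpd : (1 : ℝ) ≤ (p : ℝ) ^ δ := Real.one_le_rpow hp1 hδ.le
    have hlt := pow_neg_lt_one δ hδ p hpp
    split_ifs with hpN
    · have h3 : (p : ℝ) ^ (-δ) ≤ (2 : ℝ) ^ (-δ) :=
        Real.rpow_le_rpow_of_nonpos (by norm_num) hp2 (by linarith)
      have h4 : (1 - (p : ℝ) ^ (-δ))⁻¹ ≤ K := by
        rw [hK]
        apply inv_anti₀ (by linarith)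
        linarith
      calc (1 - (p : ℝ) ^ (-δ))⁻¹ ≤ K := h4
        _ = K * 1 := (mul_one K).symm
        _ ≤ K * (p : ℝ) ^ δ := mul_le_mul_of_nonneg_left hpd (by linarith)
    · have h5 : (2 : ℝ) ≤ (p : ℝ) ^ δ := by
        have h6 : (2 : ℝ) ^ (1 / δ) ≤ p := by
          refine (Nat.le_ceil _).trans ?_
          exact_mod_cast not_lt.1 hpN
        calc (2 : ℝ) = ((2 : ℝ) ^ (1 / δ)) ^ δ := by
              rw [← Real.rpow_mul (by norm_num), one_div, inv_mul_cancel₀ hδ.ne', Real.rpow_one]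
          _ ≤ (p : ℝ) ^ δ := Real.rpow_le_rpow (Real.rpow_nonneg (by norm_num) _) h6 hδ.le
      rw [one_mul]
      have h7 : (p : ℝ) ^ (-δ) ≤ 1 / 2 := by
        rw [Real.rpow_neg (by linarith), one_div]
        exact inv_anti₀ (by norm_num) h5
      calc (1 - (p : ℝ) ^ (-δ))⁻¹ ≤ (1 / 2 : ℝ)⁻¹ := inv_anti₀ (by norm_num) (by linarith)
        _ = 2 := by norm_num
        _ ≤ _ := h5
  have hpos : ∀ p ∈ E.primeFactors, 0 ≤ (1 - (p : ℝ) ^ (-δ))⁻¹ := by
    intro p hp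
    have := pow_neg_lt_one δ hδ p (Nat.prime_of_mem_primeFactors hp)
    exact inv_nonneg.2 (by linarith)
  refine (prod_le_prod hpos hfac).trans ?_
  rw [prod_mul_distrib]
  apply mul_le_mul
  · rw [prod_ite, prod_const, prod_const_one, mul_one]
    apply pow_le_pow_right₀ hK1
    have : E.primeFactors.filter (fun p => p < N) ⊆ range N := by
      intro p hp
      rw [mem_filter] at hp
      exact mem_range.2 hp.2
    simpa using card_le_card this
  · rw [Real.finsetProd_rpow _ _ (fun p _ => Nat.cast_nonneg p)]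
    apply Real.rpow_le_rpow (prod_nonneg fun p _ => Nat.cast_nonneg p) _ hδ.le
    rw [← Nat.cast_prod]
    exact_mod_cast Nat.le_of_dvd hE (Nat.prod_primeFactors_dvd E)
  · apply prod_nonneg
    intro p _
    exact Real.rpow_nonneg (Nat.cast_nonneg p) _
  · positivity

/-- Rankin's bound. -/
theorem rankin (δ : ℝ) (hδ : 0 < δ) : ∃ A : ℝ, 1 ≤ A ∧ ∀ E B : ℕ, 0 < E →
    ((smoothN E B).card : ℝ) ≤ A * ((B : ℝ) ^ δ * (E : ℝ) ^ δ) := by
  obtain ⟨A, hA, h⟩ := prod_inv_le δ hδ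
  refine ⟨A, hA, fun E B hE => ?_⟩
  refine (card_smoothN_le δ hδ E B hE).trans ?_
  refine (mul_le_mul_of_nonneg_left (h E hE) (Real.rpow_nonneg (Nat.cast_nonneg B) _)).trans ?_
  apply le_of_eq
  ring

/-- The non-zero integers of absolute value at most `B` whose prime factors divide `E`. -/
noncomputable def smoothZ (E B : ℕ) : Finset ℤ :=
  (smoothN E B).image (fun m : ℕ => (m : ℤ)) ∪ (smoothN E B).image (fun m : ℕ => -(m : ℤ))

theorem mem_smoothZ (E B : ℕ) (z : ℤ) (hz : z ≠ 0) (hB : |z| ≤ B)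
    (h : ∀ p : ℕ, p.Prime → (p : ℤ) ∣ z → p ∣ E) : z ∈ smoothZ E B := by
  have h1 : z.natAbs ∈ smoothN E B := by
    rw [mem_smoothN]
    refine ⟨⟨Int.natAbs_pos.2 hz, ?_⟩, fun p hp hpz => h p hp (Int.natCast_dvd.2 hpz)⟩
    zify
    exact hB
  unfold smoothZ
  rw [mem_union, mem_image, mem_image]
  rcases Int.natAbs_eq z with h2 | h2
  · exact Or.inl ⟨_, h1, h2.symm⟩
  · exact Or.inr ⟨_, h1, h2.symm⟩

theorem card_smoothZ_le (E B : ℕ) : (smoothZ E B).card ≤ 2 * (smoothN E B).card := by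
  unfold smoothZ
  refine (card_union_le _ _).trans ?_
  have h1 := card_image_le (s := smoothN E B) (f := fun m : ℕ => (m : ℤ))
  have h2 := card_image_le (s := smoothN E B) (f := fun m : ℕ => -(m : ℤ))
  omega

end Pool.Agent.H4Cnt
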